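import Mathlib
import Pool.Agent.TH676.CK.Bridge

/-!
The usual identification of numbers with binary strings (length-lexicographic order): the string
`x` has number `strNat x`, i.e. `1x` is the binary expansion of `strNat x + 1`.
-/

set_option autoImplicit false

namespace Pool.Agent.Q316.KC

/-- The number of a binary string in the length-lexicographic order: the binary expansion of
`strNat x + 1` is `1x`. -/
def strNat (x : List Bool) : ℕ := x.foldl (fun k b => 2 * k + 1 + b.toNat) 0

lemma strNat_append (x : List Bool) (b : Bool) :
    strNat (x ++ [b]) = 2 * strNat x + 1 + b.toNat := by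
  simp [strNat, List.foldl_append]

lemma strNat_nil : strNat [] = 0 := rfl

lemma strNat_bounds (x : List Bool) :
    2 ^ x.length ≤ strNat x + 1 ∧ strNat x + 1 < 2 ^ (x.length + 1) := by
  induction x using List.reverseRecOn with
  | nil => simp [strNat_nil]
  | append_singleton x b ih =>
    rw [strNat_append, List.length_append, List.length_singleton]
    have hb : b.toNat ≤ 1 := Bool.toNat_le b
    rw [pow_succ, pow_succ (n := x.length + 1)]
    rw [pow_succ] at ih
    rw [pow_succ]
    omega

lemma strNat_injective : Function.Injective strNat := by
  intro x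
  induction x using List.reverseRecOn with
  | nil =>
    intro y h
    have h1 := strNat_bounds y
    rw [← h, strNat_nil] at h1
    have : y.length = 0 := by
      by_contra hne
      have : 2 ≤ 2 ^ y.length := by
        calc 2 = 2 ^ 1 := rfl
          _ ≤ 2 ^ y.length := Nat.pow_le_pow_right (by norm_num) (by omega)
      omega
    exact (List.length_eq_zero_iff.1 this).symm
  | append_singleton x b ih =>
    intro y h
    induction y using List.reverseRecOn with
    | nil =>
      rw [strNat_append, strNat_nil] at h
      omega
    | append_singleton y b' _ =>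
      rw [strNat_append, strNat_append] at h
      have hb : b.toNat ≤ 1 := Bool.toNat_le b
      have hb' : b'.toNat ≤ 1 := Bool.toNat_le b'
      have h1 : strNat x = strNat y := by omega
      have h2 : b.toNat = b'.toNat := by omega
      have h3 : b = b' := by cases b <;> cases b' <;> simp_all
      rw [ih h1, h3]

lemma strNat_surjective : Function.Surjective strNat := by
  intro n
  induction n using Nat.strong_induction_on with
  | _ n ih =>
    rcases Nat.eq_zero_or_pos n with rfl | hn
    · exact ⟨[], rfl⟩
    · obtain ⟨x, hx⟩ := ih ((n - 1) / 2) (by omega)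
      rcases Nat.even_or_odd (n - 1) with h | h
      · refine ⟨x ++ [false], ?_⟩
        rw [strNat_append, hx]
        obtain ⟨k, hk⟩ := h
        simp only [Bool.toNat_false]
        omega
      · refine ⟨x ++ [true], ?_⟩
        rw [strNat_append, hx]
        obtain ⟨k, hk⟩ := h
        simp only [Bool.toNat_true]
        omega

/-- The string with number `n`: the usual identification of numbers with binary strings. -/
noncomputable def natStr : ℕ ≃ List Bool :=
  (Equiv.ofBijective strNat ⟨strNat_injective, strNat_surjective⟩).symm

lemma strNat_natStr (n : ℕ) : strNat (natStr n) = n :=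
  (Equiv.ofBijective strNat ⟨strNat_injective, strNat_surjective⟩).apply_symm_apply n

lemma natStr_strNat (x : List Bool) : natStr (strNat x) = x :=
  (Equiv.ofBijective strNat ⟨strNat_injective, strNat_surjective⟩).symm_apply_apply x

lemma natStr_bounds (n : ℕ) :
    2 ^ (natStr n).length ≤ n + 1 ∧ n + 1 < 2 ^ ((natStr n).length + 1) := by
  have := strNat_bounds (natStr n)
  rwa [strNat_natStr] at this

lemma length_natStr_of {n N : ℕ} (h1 : 2 ^ n ≤ N + 1) (h2 : N + 1 < 2 ^ (n + 1)) :
    (natStr N).length = n := by
  obtain ⟨h3, h4⟩ := natStr_bounds N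
  have h5 : (natStr N).length < n + 1 :=
    (Nat.pow_lt_pow_iff_right (by norm_num : 1 < 2)).1 (h3.trans_lt h2)
  have h6 : n < (natStr N).length + 1 :=
    (Nat.pow_lt_pow_iff_right (by norm_num : 1 < 2)).1 (h1.trans_lt h4)
  omega

lemma primrec_strNat : Primrec strNat := by
  unfold strNat
  refine Primrec.list_foldl (f := fun x : List Bool => x) (g := fun _ => 0)
    (h := fun _ (p : ℕ × Bool) => 2 * p.1 + 1 + p.2.toNat) Primrec.id (Primrec.const 0) ?_
  have h1 : Primrec (fun b : Bool => b.toNat) := Primrec.dom_finite _
  exact Primrec.nat_add.comp (Primrec.nat_add.comp (Primrec.nat_mul.comp (Primrec.const 2)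
    (Primrec.fst.comp Primrec.snd)) (Primrec.const 1)) (h1.comp (Primrec.snd.comp Primrec.snd))

lemma computable_natStr : Computable (natStr : ℕ → List Bool) := by
  have h1 : Computable₂ (fun (n k : ℕ) =>
      ((Encodable.decode (α := List Bool) k).bind
        (fun x => if strNat x = n then some x else none) : Option (List Bool))) := by
    have h2 : Primrec₂ (fun (p : ℕ × ℕ) (x : List Bool) =>
        (if strNat x = p.1 then some x else none : Option (List Bool))) := by
      refine Primrec.ite ?_ (Primrec.option_some.comp Primrec.snd) (Primrec.const none)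
      exact PrimrecRel.comp Primrec.eq (primrec_strNat.comp Primrec.snd)
        (Primrec.fst.comp Primrec.fst)
    exact (Primrec.option_bind (Primrec.decode.comp Primrec.snd) h2).to_comp
  have h3 := Partrec.rfindOpt h1
  refine (Partrec.of_eq_tot h3 ?_)
  intro n
  have h4 : ∃ k, natStr n ∈ (fun (k : ℕ) => ((Encodable.decode (α := List Bool) k).bind
        (fun x => if strNat x = n then some x else none) : Option (List Bool))) k := by
    refine ⟨Encodable.encode (natStr n), ?_⟩
    simp [strNat_natStr]
  have hdom : (Nat.rfindOpt (fun (k : ℕ) => ((Encodable.decode (α := List Bool) k).bind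
        (fun x => if strNat x = n then some x else none) : Option (List Bool)))).Dom :=
    Nat.rfindOpt_dom.2 (by
      obtain ⟨k, hk⟩ := h4
      exact ⟨k, _, hk⟩)
  have hy := Part.get_mem hdom
  obtain ⟨k, hk⟩ := Nat.rfindOpt_spec hy
  rw [Option.mem_def, Option.bind_eq_some_iff] at hk
  obtain ⟨x, _, hx⟩ := hk
  split_ifs at hx with h6
  have h7 : natStr n = x := by rw [← h6, natStr_strNat]
  rw [← h7] at hx
  rw [← Option.some.inj hx] at hy
  exact hy

end Pool.Agent.Q316.KC
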