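import Mathlib
import Pool.Agent.Q316.KC.Num

/-!
Strings with many short descriptions of extensions whose lengths have the same length: an upper
bound for the prefix complexity.
-/

set_option autoImplicit false
open Finset

namespace Pool.Agent.Q316.KC

open Pool.Agent.TH676.CK (IsPlain PCount approx_plain exists_approx geo2 geo_up c_add c_mul c_sub
  c_pow2 c_le c_lt c_eq c_and c_not c_ite c_filter card_len card_short)
open Pool.Agent.Helper981.KP (USC Kraft IsKP finite_of_kraft half_pow_le approx_le)

/-- the numbers whose strings have length `n` -/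
def I (n : ℕ) : Finset ℕ := (range (2^(n+1))).filter (fun N => 2^n ≤ N + 1 ∧ N + 1 < 2^(n+1))

lemma mem_I {n N : ℕ} : N ∈ I n ↔ 2^n ≤ N + 1 ∧ N + 1 < 2^(n+1) := by
  unfold I
  rw [mem_filter, mem_range]
  constructor
  · exact fun h => h.2
  · exact fun h => ⟨by omega, h⟩

lemma card_I (n : ℕ) : (I n).card = 2^n := by
  have h : I n = Finset.Ico (2^n - 1) (2^(n+1) - 1) := by
    ext N
    rw [mem_I, Finset.mem_Ico]
    have := Nat.one_le_two_pow (n := n)
    omega
  rw [h, Nat.card_Ico, pow_succ]
  have := Nat.one_le_two_pow (n := n)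
  omega

lemma le_of_mem_I {n N : ℕ} (h : N ∈ I n) : n ≤ N := by
  have h1 := (mem_I.1 h).1
  have h2 : n + 1 ≤ 2^n := Nat.lt_two_pow_self
  omega

lemma length_of_mem_I {n N : ℕ} (h : N ∈ I n) : (natStr N).length = n :=
  length_natStr_of (mem_I.1 h).1 (mem_I.1 h).2

/-- the numbers `N` with string of length `|x|` for which some extension of `x` of length `N` has
complexity at most `k` -/
noncomputable def S (C : List Bool → ℕ) (x : List Bool) (k : ℕ) : Finset ℕ :=
  letI := Classical.propDecidable
  (I x.length).filter (fun N => ∃ y : List Bool, y.length = N ∧ x <+: y ∧ C y ≤ k)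

lemma mem_S {C : List Bool → ℕ} {x : List Bool} {k N : ℕ} : N ∈ S C x k ↔
    N ∈ I x.length ∧ ∃ y : List Bool, y.length = N ∧ x <+: y ∧ C y ≤ k := by
  classical
  unfold S
  exact Finset.mem_filter

lemma pcount_list {C : List Bool → ℕ} (hC : PCount (fun i => C (natStr i))) (k : ℕ)
    (Y : Finset (List Bool)) (h : ∀ y ∈ Y, C y ≤ k) : Y.card ≤ 2^(k+1) := by
  classical
  rw [← Finset.card_image_of_injective Y strNat_injective]
  apply hC k
  intro i hi
  obtain ⟨y, hy, rfl⟩ := mem_image.1 hi
  simp only [natStr_strNat]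
  exact h y hy

lemma count_S {C : List Bool → ℕ} (hC : PCount (fun i => C (natStr i))) (n k : ℕ)
    (A : Finset (List Bool)) (hA : ∀ x ∈ A, x.length = n ∧ 2^n ≤ 2 * (S C x (n+k)).card) :
    A.card ≤ 2^(k+2) := by
  classical
  set P := A.sigma (fun x => S C x (n+k)) with hP
  have h1 : ∀ p : (Σ _ : List Bool, ℕ), p ∈ P → ∃ y : List Bool, y.length = p.2 ∧ p.1 <+: y ∧
      C y ≤ n + k := by
    intro p hp
    rw [hP, mem_sigma] at hp
    exact (mem_S.1 hp.2).2
  choose f hf1 hf2 hf3 using h1
  set F : (Σ _ : List Bool, ℕ) → List Bool := fun p => if h : p ∈ P then f p h else [] with hF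
  have hinj : Set.InjOn F (P : Set (Σ _ : List Bool, ℕ)) := by
    intro p hp q hq h
    have hp' : p ∈ P := hp
    have hq' : q ∈ P := hq
    simp only [hF, dif_pos hp', dif_pos hq'] at h
    have e2 : p.2 = q.2 := by rw [← hf1 p hp', ← hf1 q hq', h]
    have l1 := (hA p.1 (mem_sigma.1 hp').1).1
    have l2 := (hA q.1 (mem_sigma.1 hq').1).1
    have p1 := hf2 p hp'
    have p2 := hf2 q hq'
    rw [List.prefix_iff_eq_take] at p1 p2
    have e1 : p.1 = q.1 := by rw [p1, p2, h, l1, l2]
    obtain ⟨a, b⟩ := p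
    obtain ⟨a', b'⟩ := q
    simp only at e1 e2
    subst e1; subst e2; rfl
  have h2 : P.card ≤ 2^(n+k+1) := by
    rw [← Finset.card_image_of_injOn hinj]
    apply pcount_list hC
    intro y hy
    obtain ⟨p, hp, rfl⟩ := mem_image.1 hy
    simp only [hF, dif_pos hp]
    exact hf3 p hp
  have h3 : A.card * 2^n ≤ 2 * P.card := by
    rw [hP, card_sigma, mul_sum, ← smul_eq_mul, ← Finset.sum_const]
    exact sum_le_sum fun x hx => (hA x hx).2
  have h4 : A.card * 2^n ≤ 2^(k+2) * 2^n := by
    calc A.card * 2^n ≤ 2 * P.card := h3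
      _ ≤ 2 * 2^(n+k+1) := by omega
      _ = 2^(k+2) * 2^n := by rw [← pow_add, ← pow_succ']; congr 1; ring
  exact Nat.le_of_mul_le_mul_right h4 (by positivity)

/-! ### finite approximations -/

lemma length_filter_range (m : ℕ) (p : ℕ → Bool) :
    ((List.range m).filter p).length = ((Finset.range m).filter (fun i => p i = true)).card := by
  rw [← List.toFinset_card_of_nodup (List.nodup_range.filter p)]
  congr 1
  ext i
  simp

/-- the extensions of `x` of length `N` found to have complexity at most `k` -/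
noncomputable def ex (b : ℕ → ℕ → ℕ) (x N k s : ℕ) : List ℕ :=
  (List.range (2^(N+1))).filter (fun y => decide ((natStr y).length = N) &&
    (decide ((natStr y).take (natStr x).length = natStr x) && decide (b y s ≤ k)))

/-- approximation of the size of `S` -/
noncomputable def cnt (b : ℕ → ℕ → ℕ) (x k s : ℕ) : ℕ :=
  ((List.range (2^((natStr x).length+1))).filter (fun N =>
    decide (2^(natStr x).length ≤ N+1) && (decide (N+1 < 2^((natStr x).length+1)) &&
      decide (0 < (ex b x N k s).length)))).length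

lemma c_range {α : Type*} [Primcodable α] {f : α → ℕ} (hf : Computable f) :
    Computable fun x => List.range (f x) := Primrec.list_range.to_comp.comp hf

lemma c_len {α : Type*} [Primcodable α] {f : α → ℕ} (hf : Computable f) :
    Computable fun x => (natStr (f x)).length :=
  Computable.list_length.comp (computable_natStr.comp hf)

lemma c_ex {b : ℕ → ℕ → ℕ} (hb : Computable₂ b) {α : Type*} [Primcodable α] {x N k s : α → ℕ}
    (hx : Computable x) (hN : Computable N) (hk : Computable k) (hs : Computable s) :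
    Computable fun a => ex b (x a) (N a) (k a) (s a) := by
  unfold ex
  refine c_filter (l := fun a => List.range (2^(N a+1)))
    (p := fun a y => decide ((natStr y).length = N a) &&
      (decide ((natStr y).take (natStr (x a)).length = natStr (x a)) &&
        decide (b y (s a) ≤ k a))) ?_ ?_
  · exact c_range (c_pow2 (c_add hN (Computable.const 1)))
  · have hf : ∀ {f : α → ℕ}, Computable f → Computable (fun p : α × ℕ => f p.1) :=
      fun h => h.comp Computable.fst
    refine c_and (c_eq (c_len Computable.snd) (hf hN)) (c_and ?_ ?_)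
    · refine (Primrec.eq.decide.to_comp).comp
        ((Primrec.list_take.to_comp).comp (c_len (hf hx)) (computable_natStr.comp Computable.snd))
        (computable_natStr.comp (hf hx))
    · exact c_le (hb.comp Computable.snd (hf hs)) (hf hk)

lemma c_cnt {b : ℕ → ℕ → ℕ} (hb : Computable₂ b) {α : Type*} [Primcodable α] {x k s : α → ℕ}
    (hx : Computable x) (hk : Computable k) (hs : Computable s) :
    Computable fun a => cnt b (x a) (k a) (s a) := by
  unfold cnt
  refine Computable.list_length.comp ?_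
  refine c_filter (l := fun a => List.range (2^((natStr (x a)).length+1)))
    (p := fun a N => decide (2^(natStr (x a)).length ≤ N+1) &&
      (decide (N+1 < 2^((natStr (x a)).length+1)) &&
        decide (0 < (ex b (x a) N (k a) (s a)).length))) ?_ ?_
  · exact c_range (c_pow2 (c_add (c_len hx) (Computable.const 1)))
  · have hf : ∀ {f : α → ℕ}, Computable f → Computable (fun p : α × ℕ => f p.1) :=
      fun h => h.comp Computable.fst
    refine c_and (c_le (c_pow2 (c_len (hf hx))) (c_add Computable.snd (Computable.const 1)))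
      (c_and (c_lt (c_add Computable.snd (Computable.const 1))
        (c_pow2 (c_add (c_len (hf hx)) (Computable.const 1)))) ?_)
    exact c_lt (Computable.const 0) (Computable.list_length.comp
      (c_ex hb (hf hx) Computable.snd (hf hk) (hf hs)))

lemma mem_ex {b : ℕ → ℕ → ℕ} {x N k s y : ℕ} : y ∈ ex b x N k s ↔
    (natStr y).length = N ∧ natStr x <+: natStr y ∧ b y s ≤ k := by
  unfold ex
  rw [List.mem_filter, List.mem_range]
  simp only [Bool.and_eq_true, decide_eq_true_eq]
  rw [List.prefix_iff_eq_take]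
  constructor
  · exact fun h => ⟨h.2.1, h.2.2.1.symm, h.2.2.2⟩
  · refine fun h => ⟨?_, h.1, h.2.1.symm, h.2.2⟩
    have := (natStr_bounds y).2
    rw [h.1] at this
    omega

section approx
variable {C : List Bool → ℕ} {b : ℕ → ℕ → ℕ} (hb1 : ∀ y t, C (natStr y) ≤ b y t)
  (hb2 : ∀ y, ∃ t₀, ∀ t ≥ t₀, b y t = C (natStr y))

include hb1 in
lemma cnt_le (x k s : ℕ) : cnt b x k s ≤ (S C (natStr x) k).card := by
  unfold cnt
  rw [length_filter_range]
  apply card_le_card
  intro N hN
  rw [mem_filter] at hN
  simp only [Bool.and_eq_true, decide_eq_true_eq] at hN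
  rw [mem_S, mem_I]
  refine ⟨⟨hN.2.1, hN.2.2.1⟩, ?_⟩
  obtain ⟨y, hy⟩ := List.exists_mem_of_length_pos hN.2.2.2
  obtain ⟨h1, h2, h3⟩ := mem_ex.1 hy
  exact ⟨natStr y, h1, h2, (hb1 y s).trans h3⟩

include hb2 in
lemma le_cnt (x k : ℕ) : ∃ s₀, ∀ s ≥ s₀, (S C (natStr x) k).card ≤ cnt b x k s := by
  classical
  have h1 : ∀ N : ℕ, N ∈ S C (natStr x) k → ∃ y : ℕ, (natStr y).length = N ∧
      natStr x <+: natStr y ∧ C (natStr y) ≤ k := by
    intro N hN
    obtain ⟨y, h1, h2, h3⟩ := (mem_S.1 hN).2
    exact ⟨strNat y, by rw [natStr_strNat]; exact ⟨h1, h2, h3⟩⟩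
  choose f hf using h1
  choose t ht using hb2
  set F : ℕ → ℕ := fun N => if h : N ∈ S C (natStr x) k then t (f N h) else 0 with hF
  refine ⟨(S C (natStr x) k).sup F, fun s hs => ?_⟩
  unfold cnt
  rw [length_filter_range]
  apply card_le_card
  intro N hN
  rw [mem_filter]
  simp only [Bool.and_eq_true, decide_eq_true_eq]
  have h2 := mem_I.1 (mem_S.1 hN).1
  refine ⟨mem_range.2 (by omega), h2.1, h2.2, ?_⟩
  apply List.length_pos_of_mem (a := f N hN)
  rw [mem_ex]
  refine ⟨(hf N hN).1, (hf N hN).2.1, ?_⟩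
  have h3 : t (f N hN) ≤ s := by
    refine le_trans ?_ hs
    have := Finset.le_sup (f := F) hN
    simp only [hF, dif_pos hN] at this
    exact this
  rw [ht _ s h3]
  exact (hf N hN).2.2

end approx

/-! ### the upper bound for prefix complexity -/

theorem K_upper {K C : List Bool → ℕ} (hK : IsKP (fun i => K (natStr i)))
    (hC : IsPlain (fun i => C (natStr i))) :
    ∃ c : ℕ, ∀ (x : List Bool) (e : ℕ), 2^x.length ≤ 2 * (S C x (x.length + e)).card →
      K x ≤ K (natStr x.length) + 2*e + c := by
  classical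
  obtain ⟨a, ha, ha1, ha2⟩ := exists_approx hK.1
  obtain ⟨b, hb, hb1, hb2⟩ := exists_approx hC.1
  set cond : ℕ → ℕ → Prop := fun x t =>
    2^(natStr x).length ≤ 2 * cnt b x ((natStr x).length + t.unpair.2) t.unpair.1 with hcond
  set g : ℕ → ℕ → ℕ := fun x t =>
    if cond x t then a (natStr x).length t.unpair.1 + 2 * t.unpair.2 + 4 else x + 2 with hg
  have hgc : Computable₂ g := by
    have hx : Computable (fun p : ℕ × ℕ => p.1) := Computable.fst
    have h1 : Computable (fun p : ℕ × ℕ => p.2.unpair.1) :=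
      Computable.fst.comp (Computable.unpair.comp Computable.snd)
    have h2 : Computable (fun p : ℕ × ℕ => p.2.unpair.2) :=
      Computable.snd.comp (Computable.unpair.comp Computable.snd)
    refine c_ite (p := fun p : ℕ × ℕ => cond p.1 p.2) ?_ ?_ ?_
    · exact c_le (c_pow2 (c_len hx)) (c_mul (Computable.const 2)
        (c_cnt hb hx (c_add (c_len hx) h2) h1))
    · exact c_add (c_add (ha.comp (c_len hx) h1) (c_mul (Computable.const 2) h2))
        (Computable.const 4)
    · exact c_add hx (Computable.const 2)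
  have hkr : ∀ (U : Finset ℕ) (τ : ℕ → ℕ), ∑ u ∈ U, ((1:ℝ)/2)^(g u (τ u)) ≤ 1 := by
    intro U τ
    rw [← Finset.sum_filter_add_sum_filter_not U (fun u => cond u (τ u))]
    set U₁ := U.filter (fun u => cond u (τ u)) with hU₁
    set U₂ := U.filter (fun u => ¬ cond u (τ u)) with hU₂
    have h2 : ∑ u ∈ U₂, ((1:ℝ)/2)^(g u (τ u)) ≤ 1/2 := by
      have h3 : ∑ u ∈ U₂, ((1:ℝ)/2)^(g u (τ u)) = ∑ u ∈ U₂, ((1:ℝ)/2)^(u+2) := by
        refine Finset.sum_congr rfl fun u hu => ?_
        rw [hU₂, Finset.mem_filter] at hu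
        simp only [hg]
        rw [if_neg hu.2]
      rw [h3]
      refine le_trans ?_ (geo2 (U₂.sup id + 1))
      apply Finset.sum_le_sum_of_subset_of_nonneg
      · intro u hu
        have := Finset.le_sup (f := id) hu
        simp only [id] at this
        exact Finset.mem_range.2 (Nat.lt_succ_of_le this)
      · intro _ _ _; positivity
    have h1 : ∑ u ∈ U₁, ((1:ℝ)/2)^(g u (τ u)) ≤ 1/2 := by
      set L := U₁.sup (fun u => (natStr u).length) + 1 with hL
      set E := U₁.sup (fun u => (τ u).unpair.2) + 1 with hE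
      have hmaps : ∀ u ∈ U₁, ((natStr u).length, (τ u).unpair.2) ∈ range L ×ˢ range E := by
        intro u hu
        rw [mem_product]
        exact ⟨mem_range.2 (Nat.lt_succ_of_le
            (Finset.le_sup (f := fun u => (natStr u).length) hu)),
          mem_range.2 (Nat.lt_succ_of_le (Finset.le_sup (f := fun u => (τ u).unpair.2) hu))⟩
      rw [← Finset.sum_fiberwise_of_maps_to hmaps]
      have h3 : ∀ p ∈ range L ×ˢ range E, ∑ u ∈ U₁.filter
          (fun u => ((natStr u).length, (τ u).unpair.2) = p), ((1:ℝ)/2)^(g u (τ u)) ≤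
          ((1:ℝ)/2)^(K (natStr p.1)) * ((1:ℝ)/2)^(p.2+2) := by
        rintro ⟨n, e⟩ -
        set V := U₁.filter (fun u => ((natStr u).length, (τ u).unpair.2) = (n, e)) with hV
        have hVm : ∀ u ∈ V, (natStr u).length = n ∧ (τ u).unpair.2 = e ∧ cond u (τ u) := by
          intro u hu
          rw [hV, mem_filter] at hu
          have := hu.2
          rw [Prod.mk.injEq] at this
          exact ⟨this.1, this.2, (mem_filter.1 hu.1).2⟩
        have hcard : V.card ≤ 2^(e+2) := by
          rw [← Finset.card_image_of_injective V natStr.injective]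
          apply count_S hC.2.1 n e
          intro x hx
          obtain ⟨u, hu, rfl⟩ := mem_image.1 hx
          obtain ⟨h4, h5, h6⟩ := hVm u hu
          refine ⟨h4, ?_⟩
          rw [hcond] at h6
          rw [h4, h5] at h6
          have h7 := cnt_le (C := C) hb1 u (n + e) (τ u).unpair.1
          omega
        have hterm : ∀ u ∈ V, ((1:ℝ)/2)^(g u (τ u)) ≤ ((1:ℝ)/2)^(K (natStr n) + 2*e + 4) := by
          intro u hu
          obtain ⟨h4, h5, h6⟩ := hVm u hu
          apply half_pow_le
          simp only [hg]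
          rw [if_pos h6, h4, h5]
          have := ha1 n (τ u).unpair.1
          omega
        calc ∑ u ∈ V, ((1:ℝ)/2)^(g u (τ u)) ≤ V.card • ((1:ℝ)/2)^(K (natStr n) + 2*e + 4) :=
              Finset.sum_le_card_nsmul _ _ _ hterm
          _ = (V.card : ℝ) * ((1:ℝ)/2)^(K (natStr n) + 2*e + 4) := by rw [nsmul_eq_mul]
          _ ≤ (2:ℝ)^(e+2) * ((1:ℝ)/2)^(K (natStr n) + 2*e + 4) := by
              apply mul_le_mul_of_nonneg_right _ (by positivity)
              exact_mod_cast hcard
          _ = ((1:ℝ)/2)^(K (natStr n)) * ((1:ℝ)/2)^(e+2) := by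
              have : ((1:ℝ)/2)^(K (natStr n) + 2*e + 4) =
                  ((1:ℝ)/2)^(K (natStr n)) * ((1:ℝ)/2)^(e+2) * ((1:ℝ)/2)^(e+2) := by
                rw [← pow_add, ← pow_add]; congr 1; ring
              rw [this]
              have h8 : (2:ℝ)^(e+2) * ((1:ℝ)/2)^(e+2) = 1 := by
                rw [← mul_pow]; norm_num
              calc (2:ℝ)^(e+2) * (((1:ℝ)/2)^(K (natStr n)) * ((1:ℝ)/2)^(e+2) * ((1:ℝ)/2)^(e+2))
                  = ((1:ℝ)/2)^(K (natStr n)) * ((1:ℝ)/2)^(e+2) *
                      ((2:ℝ)^(e+2) * ((1:ℝ)/2)^(e+2)) := by ring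
                _ = _ := by rw [h8, mul_one]
      refine (Finset.sum_le_sum h3).trans ?_
      rw [Finset.sum_product]
      have h9 : ∀ n ∈ range L, ∑ e ∈ range E, ((1:ℝ)/2)^(K (natStr n)) * ((1:ℝ)/2)^(e+2) ≤
          ((1:ℝ)/2)^(K (natStr n)) * (1/2) := by
        intro n _
        rw [← Finset.mul_sum]
        exact mul_le_mul_of_nonneg_left (geo2 E) (by positivity)
      refine (Finset.sum_le_sum h9).trans ?_
      rw [← Finset.sum_mul]
      have h10 := finite_of_kraft hK.2.1 (range L)
      linarith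
    linarith
  obtain ⟨c, hc⟩ := approx_le hK g hgc hkr
  refine ⟨c + 4, fun x e hx => ?_⟩
  obtain ⟨s₁, hs₁⟩ := le_cnt (C := C) hb2 (strNat x) (x.length + e)
  obtain ⟨s₂, hs₂⟩ := ha2 x.length
  set s := max s₁ s₂ with hs
  have h1 := hc (strNat x) (Nat.pair s e)
  have h2 : cond (strNat x) (Nat.pair s e) := by
    simp only [hcond]
    rw [Nat.unpair_pair, natStr_strNat]
    have h3 := hs₁ s (le_max_left _ _)
    rw [natStr_strNat] at h3
    change 2 ^ x.length ≤ 2 * cnt b (strNat x) (x.length + e) s
    omega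
  simp only [hg] at h1
  rw [if_pos h2, natStr_strNat, Nat.unpair_pair] at h1
  simp only at h1
  rw [hs₂ s (le_max_right _ _)] at h1
  omega

end Pool.Agent.Q316.KC
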