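import Mathlib
import Pool.Agent.Q316.KC.Cnt

/-!
Averages of complexity with respect to a measure on Cantor space.
-/

set_option autoImplicit false
open Finset MeasureTheory

namespace Pool.Agent.Q316.KC

open Pool.Agent.TH676.CK (IsPlain PCount)
open Pool.Agent.Helper981.KP (USC Kraft IsKP)

/-- The average of `f` over the strings of length `n`, with respect to the measure `μ` on Cantor
space: the sum, over the strings `v` of length `n`, of the `μ`-measure of the cylinder of the
sequences extending `v` times `f v`. -/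
noncomputable def avg (μ : Measure (ℕ → Bool)) (f : List Bool → ℕ) (n : ℕ) : ℝ :=
  ∑ v : Fin n → Bool, μ.real {X | ∀ i : Fin n, X i = v i} * (f (List.ofFn v) : ℝ)

/-- the strings of length `n` -/
def L (n : ℕ) : Finset (List Bool) := (Finset.univ : Finset (Fin n → Bool)).image List.ofFn

lemma mem_L {n : ℕ} {x : List Bool} : x ∈ L n ↔ x.length = n := by
  unfold L
  rw [mem_image]
  constructor
  · rintro ⟨v, -, rfl⟩; simp
  · rintro rfl
    exact ⟨fun i => x.get i, mem_univ _, List.ofFn_get x⟩

/-- the first `n` bits -/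
def ini (n : ℕ) (X : ℕ → Bool) : List Bool := List.ofFn (fun i : Fin n => X i)

lemma length_ini (n : ℕ) (X : ℕ → Bool) : (ini n X).length = n := by simp [ini]

lemma ini_take {n N : ℕ} (h : n ≤ N) (X : ℕ → Bool) : (ini N X).take n = ini n X := by
  apply List.ext_getElem
  · simp [ini, h]
  · intro i h1 h2
    simp [ini]

/-- the weight of a string -/
noncomputable def wt (μ : Measure (ℕ → Bool)) (x : List Bool) : ℝ :=
  μ.real (ini x.length ⁻¹' {x})

lemma measurable_ini_preimage (n : ℕ) (x : List Bool) : MeasurableSet (ini n ⁻¹' {x}) := by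
  by_cases h : x.length = n
  · subst h
    have : ini x.length ⁻¹' {x} = ⋂ i : Fin x.length, {X : ℕ → Bool | X i = x.get i} := by
      ext X
      simp only [Set.mem_preimage, Set.mem_singleton_iff, Set.mem_iInter, Set.mem_ofPred_eq]
      constructor
      · intro h i
        have h1 := congrArg (fun l => l[(i : ℕ)]?) h
        simpa [ini] using h1
      · intro h
        apply List.ext_getElem
        · simp [ini]
        · intro i h1 h2
          have := h ⟨i, h2⟩
          simpa [ini] using this
    rw [this]
    refine MeasurableSet.iInter fun i => ?_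
    exact measurableSet_eq_fun (measurable_pi_apply (i : ℕ)) measurable_const
  · have : ini n ⁻¹' {x} = ∅ := by
      ext X
      simp only [Set.mem_preimage, Set.mem_singleton_iff, Set.mem_empty_iff_false, iff_false]
      intro h1
      exact h (by rw [← h1, length_ini])
    rw [this]
    exact MeasurableSet.empty

lemma avg_eq (μ : Measure (ℕ → Bool)) (f : List Bool → ℕ) (n : ℕ) :
    avg μ f n = ∑ x ∈ L n, wt μ x * (f x : ℝ) := by
  unfold avg L
  rw [Finset.sum_image (fun a _ b _ h => List.ofFn_injective h)]
  refine Finset.sum_congr rfl fun v _ => ?_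
  congr 2
  ext X
  simp only [Set.mem_ofPred_eq, Set.mem_preimage, Set.mem_singleton_iff]
  constructor
  · intro h
    apply List.ext_getElem
    · simp [ini]
    · intro i h1 h2
      simp only [List.length_ofFn] at h2
      simpa [ini] using h ⟨i, h2⟩
  · intro h i
    have h1 := congrArg (fun l => l[(i : ℕ)]?) h
    simpa [ini] using h1

section
variable (μ : Measure (ℕ → Bool)) [IsProbabilityMeasure μ]

omit [IsProbabilityMeasure μ] in
lemma wt_nonneg (x : List Bool) : 0 ≤ wt μ x := measureReal_nonneg

lemma sum_wt_eq (N : ℕ) (A : Finset (List Bool)) (hA : ∀ y ∈ A, y.length = N) :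
    ∑ y ∈ A, wt μ y = μ.real (ini N ⁻¹' ↑A) := by
  rw [← sum_measureReal_preimage_singleton A (fun y _ => measurable_ini_preimage N y)]
  refine Finset.sum_congr rfl fun y hy => ?_
  unfold wt
  rw [hA y hy]

lemma sum_wt (n : ℕ) : ∑ x ∈ L n, wt μ x = 1 := by
  rw [sum_wt_eq μ n _ (fun y hy => mem_L.1 hy)]
  have : ini n ⁻¹' (↑(L n) : Set (List Bool)) = Set.univ := by
    ext X
    simp only [Set.mem_preimage, Finset.mem_coe, Set.mem_univ, iff_true]
    exact mem_L.2 (length_ini n X)
  rw [this]
  simp

lemma sum_wt_ext {N : ℕ} (x : List Bool) (h : x.length ≤ N) :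
    ∑ y ∈ (L N).filter (fun y => y.take x.length = x), wt μ y = wt μ x := by
  rw [sum_wt_eq μ N _ (fun y hy => mem_L.1 (mem_filter.1 hy).1)]
  unfold wt
  congr 1
  ext X
  simp only [Set.mem_preimage, Finset.mem_coe, Set.mem_singleton_iff, mem_filter]
  rw [mem_L, length_ini, ini_take h]
  simp

/-- the average over longer strings is at least the average of a lower bound -/
lemma avg_ge {n N : ℕ} (h : n ≤ N) (f : List Bool → ℕ) (D : List Bool → ℝ)
    (hD : ∀ x y : List Bool, x.length = n → y.length = N → y.take n = x → D x ≤ f y) :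
    ∑ x ∈ L n, wt μ x * D x ≤ avg μ f N := by
  rw [avg_eq]
  have hmaps : ∀ y ∈ L N, y.take n ∈ L n := by
    intro y hy
    rw [mem_L] at hy ⊢
    rw [List.length_take, hy]
    omega
  rw [← Finset.sum_fiberwise_of_maps_to hmaps]
  refine Finset.sum_le_sum fun x hx => ?_
  have hx' := mem_L.1 hx
  have h1 := sum_wt_ext μ x (N := N) (by omega)
  rw [hx'] at h1
  rw [← h1, Finset.sum_mul]
  refine Finset.sum_le_sum fun y hy => ?_
  rw [mem_filter] at hy
  exact mul_le_mul_of_nonneg_left (hD x y hx' (mem_L.1 hy.1) hy.2) (wt_nonneg μ y)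

/-- the average over longer strings is at most the average of an upper bound -/
lemma avg_le {n N : ℕ} (h : n ≤ N) (f : List Bool → ℕ) (D : List Bool → ℝ)
    (hD : ∀ x y : List Bool, x.length = n → y.length = N → y.take n = x → (f y : ℝ) ≤ D x) :
    avg μ f N ≤ ∑ x ∈ L n, wt μ x * D x := by
  rw [avg_eq]
  have hmaps : ∀ y ∈ L N, y.take n ∈ L n := by
    intro y hy
    rw [mem_L] at hy ⊢
    rw [List.length_take, hy]
    omega
  rw [← Finset.sum_fiberwise_of_maps_to hmaps]
  refine Finset.sum_le_sum fun x hx => ?_
  have hx' := mem_L.1 hx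
  have h1 := sum_wt_ext μ x (N := N) (by omega)
  rw [hx'] at h1
  rw [← h1, Finset.sum_mul]
  refine Finset.sum_le_sum fun y hy => ?_
  rw [mem_filter] at hy
  exact mul_le_mul_of_nonneg_left (hD x y hx' (mem_L.1 hy.1) hy.2) (wt_nonneg μ y)

end

/-- plain complexity is at most the length, up to a constant -/
lemma plain_le_length {C : List Bool → ℕ} (hC : IsPlain (fun i => C (natStr i))) :
    ∃ c : ℕ, ∀ x : List Bool, C x ≤ x.length + c := by
  classical
  obtain ⟨c, hc⟩ := hC.2.2 (fun i => (natStr i).length)
    ⟨fun i _ => (natStr i).length, c_len Computable.fst, fun i => ⟨fun _ => le_rfl, 0, rfl⟩⟩ (by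
      intro k U hU
      rw [← Finset.card_image_of_injective U natStr.injective]
      apply Pool.Agent.TH676.CK.card_short
      intro p hp
      obtain ⟨u, hu, rfl⟩ := mem_image.1 hp
      exact hU u hu)
  refine ⟨c, fun x => ?_⟩
  have := hc (strNat x)
  simp only [natStr_strNat] at this
  exact this

end Pool.Agent.Q316.KC
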