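import Mathlib
import Pool.Agent.Q316.KC.Wt

/-!
For measures: `C(μ↾m) ≥ m - c` for all `m` implies `K(μ↾n) ≥ n + K(n) - c'` for all `n`.
-/

set_option autoImplicit false
open Finset MeasureTheory

namespace Pool.Agent.Q316.KC

open Pool.Agent.TH676.CK (IsPlain PCount approx_plain geo2 geo_up c_add c_mul c_sub
  c_pow2 c_le c_lt c_eq c_and c_not c_ite c_filter card_len card_short le_fmin' fmin_le'
  fmin_anti')
open Pool.Agent.Helper981.KP (USC Kraft IsKP finite_of_kraft half_pow_le approx_le fmin
  computable_fmin)

/-- a decreasing approximation from above -/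
lemma exists_approx_anti {K : ℕ → ℕ} (h : USC K) : ∃ a : ℕ → ℕ → ℕ, Computable₂ a ∧
    (∀ x t, K x ≤ a x t) ∧ (∀ x, ∃ t₀, ∀ t ≥ t₀, a x t = K x) ∧
    ∀ x t t', t ≤ t' → a x t' ≤ a x t := by
  obtain ⟨f, hf, hfK⟩ := h
  refine ⟨fmin f, computable_fmin hf, fun x t => le_fmin' (fun x t => (hfK x).1 t) x t, ?_,
    fun x t t' htt => fmin_anti' f x htt⟩
  intro x
  obtain ⟨t₀, ht₀⟩ := (hfK x).2
  refine ⟨t₀, fun t ht => le_antisymm ?_ (le_fmin' (fun x t => (hfK x).1 t) x t)⟩
  exact (fmin_anti' f x ht).trans ((fmin_le' f x t₀).trans ht₀.le)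

/-- codes of the strings of length `n` found to have complexity at most `j` -/
noncomputable def ls (a : ℕ → ℕ → ℕ) (n j s : ℕ) : List ℕ :=
  (List.range (2^(n+1))).filter (fun x => decide ((natStr x).length = n) && decide (a x s ≤ j))

lemma c_ls {a : ℕ → ℕ → ℕ} (ha : Computable₂ a) {α : Type*} [Primcodable α] {n j s : α → ℕ}
    (hn : Computable n) (hj : Computable j) (hs : Computable s) :
    Computable fun p => ls a (n p) (j p) (s p) := by
  unfold ls
  refine c_filter (l := fun p => List.range (2^(n p+1)))
    (p := fun p x => decide ((natStr x).length = n p) && decide (a x (s p) ≤ j p)) ?_ ?_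
  · exact (Primrec.list_range.to_comp).comp (c_pow2 (c_add hn (Computable.const 1)))
  · exact c_and (c_eq (c_len Computable.snd) (hn.comp Computable.fst))
      (c_le (ha.comp Computable.snd (hs.comp Computable.fst)) (hj.comp Computable.fst))

lemma mem_ls {a : ℕ → ℕ → ℕ} {n j s x : ℕ} : x ∈ ls a n j s ↔
    (natStr x).length = n ∧ a x s ≤ j := by
  unfold ls
  rw [List.mem_filter, List.mem_range]
  simp only [Bool.and_eq_true, decide_eq_true_eq]
  constructor
  · exact fun h => h.2
  · refine fun h => ⟨?_, h⟩
    have := (natStr_bounds x).2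
    rw [h.1] at this
    omega

lemma nodup_ls (a : ℕ → ℕ → ℕ) (n j s : ℕ) : (ls a n j s).Nodup :=
  List.nodup_range.filter _

lemma card_ls (a : ℕ → ℕ → ℕ) (n j s : ℕ) : (ls a n j s).toFinset.card = (ls a n j s).length :=
  List.toFinset_card_of_nodup (nodup_ls a n j s)

/-- many strings of length `n` with small prefix complexity give a small complexity of `n` -/
theorem K_count {K : List Bool → ℕ} (hK : IsKP (fun i => K (natStr i))) :
    ∃ c : ℕ, ∀ (n i j : ℕ) (A : Finset (List Bool)), (∀ x ∈ A, x.length = n ∧ K x ≤ j) →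
      2^i ≤ A.card → K (natStr n) + i ≤ j + c := by
  classical
  obtain ⟨a, ha, ha1, ha2, ha3⟩ := exists_approx_anti hK.1
  set cond : ℕ → ℕ → Prop := fun n t =>
    2^t.unpair.2.unpair.1 ≤ (ls a n t.unpair.2.unpair.2 t.unpair.1).length with hcond
  set g : ℕ → ℕ → ℕ := fun n t =>
    if cond n t then (t.unpair.2.unpair.2 - t.unpair.2.unpair.1) + 1 else n + 2 with hg
  have hgc : Computable₂ g := by
    have hx : Computable (fun p : ℕ × ℕ => p.1) := Computable.fst
    have h1 : Computable (fun p : ℕ × ℕ => p.2.unpair.1) :=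
      Computable.fst.comp (Computable.unpair.comp Computable.snd)
    have h2 : Computable (fun p : ℕ × ℕ => p.2.unpair.2) :=
      Computable.snd.comp (Computable.unpair.comp Computable.snd)
    have h3 : Computable (fun p : ℕ × ℕ => p.2.unpair.2.unpair.1) :=
      Computable.fst.comp (Computable.unpair.comp h2)
    have h4 : Computable (fun p : ℕ × ℕ => p.2.unpair.2.unpair.2) :=
      Computable.snd.comp (Computable.unpair.comp h2)
    refine c_ite (p := fun p : ℕ × ℕ => cond p.1 p.2) ?_ ?_ ?_
    · exact c_le (c_pow2 h3) (Computable.list_length.comp (c_ls ha hx h4 h1))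
    · exact c_add (c_sub h4 h3) (Computable.const 1)
    · exact c_add hx (Computable.const 2)
  have hkr : ∀ (U : Finset ℕ) (τ : ℕ → ℕ), ∑ u ∈ U, ((1:ℝ)/2)^(g u (τ u)) ≤ 1 := by
    intro U τ
    rw [← Finset.sum_filter_add_sum_filter_not U (fun u => cond u (τ u))]
    set U₁ := U.filter (fun u => cond u (τ u)) with hU₁
    set U₂ := U.filter (fun u => ¬ cond u (τ u)) with hU₂
    have h2 : ∑ u ∈ U₂, ((1:ℝ)/2)^(g u (τ u)) ≤ 1/2 := by
      have h3 : ∑ u ∈ U₂, ((1:ℝ)/2)^(g u (τ u)) = ∑ u ∈ U₂, ((1:ℝ)/2)^(u+2) := by
        refine Finset.sum_congr rfl fun u hu => ?_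
        rw [hU₂, Finset.mem_filter] at hu
        simp only [hg]
        rw [if_neg hu.2]
      rw [h3]
      refine le_trans ?_ (geo2 (U₂.sup id + 1))
      apply Finset.sum_le_sum_of_subset_of_nonneg
      · intro u hu
        have := Finset.le_sup (f := id) hu
        simp only [id] at this
        exact Finset.mem_range.2 (Nat.lt_succ_of_le this)
      · intro _ _ _; positivity
    have h1 : ∑ u ∈ U₁, ((1:ℝ)/2)^(g u (τ u)) ≤ 1/2 := by
      -- the codes found at stage `τ u`
      set B : ℕ → Finset ℕ := fun u =>
        (ls a u (τ u).unpair.2.unpair.2 (τ u).unpair.1).toFinset with hB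
      have hterm : ∀ u ∈ U₁, ((1:ℝ)/2)^(g u (τ u)) ≤
          (1/2) * ∑ x ∈ B u, ((1:ℝ)/2)^(K (natStr x)) := by
        intro u hu
        have hc := (mem_filter.1 hu).2
        simp only [hg]
        rw [if_pos hc]
        rw [hcond] at hc
        generalize hi : (τ u).unpair.2.unpair.1 = i at hc
        have hj : (B u) = (ls a u (τ u).unpair.2.unpair.2 (τ u).unpair.1).toFinset := rfl
        generalize hj' : (τ u).unpair.2.unpair.2 = j at hc hj
        rw [pow_succ, mul_comm]
        apply mul_le_mul_of_nonneg_left _ (by norm_num)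
        have h3 : ∀ x ∈ B u, ((1:ℝ)/2)^j ≤ ((1:ℝ)/2)^(K (natStr x)) := by
          intro x hx
          rw [hj, List.mem_toFinset, mem_ls] at hx
          apply half_pow_le
          exact (ha1 x _).trans hx.2
        calc ((1:ℝ)/2)^(j - i) ≤ (2:ℝ)^i * ((1:ℝ)/2)^j := by
              rcases le_total i j with h | h
              · obtain ⟨l, rfl⟩ := Nat.exists_eq_add_of_le h
                rw [Nat.add_sub_cancel_left, pow_add, ← mul_assoc, ← mul_pow]
                norm_num
              · rw [Nat.sub_eq_zero_of_le h, pow_zero]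
                obtain ⟨l, rfl⟩ := Nat.exists_eq_add_of_le h
                rw [pow_add, mul_comm ((2:ℝ)^j), mul_assoc, ← mul_pow]
                norm_num
                exact one_le_pow₀ (by norm_num)
          _ ≤ ((B u).card : ℝ) * ((1:ℝ)/2)^j := by
              apply mul_le_mul_of_nonneg_right _ (by positivity)
              rw [hj, card_ls]
              exact_mod_cast hc
          _ = (B u).card • ((1:ℝ)/2)^j := by rw [nsmul_eq_mul]
          _ ≤ _ := Finset.card_nsmul_le_sum _ _ _ h3
      refine (Finset.sum_le_sum hterm).trans ?_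
      rw [← Finset.mul_sum]
      have hdisj : (U₁ : Set ℕ).PairwiseDisjoint B := by
        intro u _ v _ huv
        rw [Function.onFun, Finset.disjoint_left]
        intro x hx hx'
        simp only [hB, List.mem_toFinset] at hx hx'
        rw [mem_ls] at hx hx'
        exact huv (hx.1.symm.trans hx'.1)
      rw [← Finset.sum_biUnion hdisj]
      have := finite_of_kraft hK.2.1 (U₁.biUnion B)
      linarith
    linarith
  obtain ⟨c, hc⟩ := approx_le hK g hgc hkr
  refine ⟨c + 1, fun n i j A hA hi => ?_⟩
  choose t ht using ha2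
  set s := A.sup (fun x => t (strNat x)) with hs
  have h1 := hc n (Nat.pair s (Nat.pair i j))
  have h2 : A.card ≤ (ls a n j s).length := by
    rw [← card_ls, ← Finset.card_image_of_injective A strNat_injective]
    apply card_le_card
    intro y hy
    obtain ⟨x, hx, rfl⟩ := mem_image.1 hy
    rw [List.mem_toFinset, mem_ls, natStr_strNat]
    refine ⟨(hA x hx).1, ?_⟩
    rw [ht (strNat x) s (Finset.le_sup (f := fun x => t (strNat x)) hx), natStr_strNat]
    exact (hA x hx).2
  have h3 : cond n (Nat.pair s (Nat.pair i j)) := by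
    simp only [hcond, Nat.unpair_pair]
    exact hi.trans h2
  simp only [hg] at h1
  rw [if_pos h3] at h1
  simp only [Nat.unpair_pair] at h1
  have hij : i ≤ j := by
    have h4 := finite_of_kraft hK.2.1 (A.image strNat)
    rw [Finset.sum_image (fun a _ b _ h => strNat_injective h)] at h4
    simp only [natStr_strNat] at h4
    have h5 : A.card • ((1:ℝ)/2)^j ≤ ∑ x ∈ A, ((1:ℝ)/2)^(K x) :=
      Finset.card_nsmul_le_sum _ _ _ (fun x hx => half_pow_le (hA x hx).2)
    rw [nsmul_eq_mul] at h5
    have h6 : (A.card : ℝ) * ((1:ℝ)/2)^j ≤ 1 := h5.trans h4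
    have h7 : (A.card : ℝ) ≤ 2^j := by
      have : (A.card : ℝ) = (A.card : ℝ) * ((1:ℝ)/2)^j * 2^j := by
        rw [mul_assoc, ← mul_pow]; norm_num
      rw [this]
      calc (A.card : ℝ) * ((1:ℝ)/2)^j * 2^j ≤ 1 * 2^j :=
            mul_le_mul_of_nonneg_right h6 (by positivity)
        _ = 2^j := one_mul _
    have h8 : A.card ≤ 2^j := by exact_mod_cast h7
    exact (Nat.pow_le_pow_iff_right (by norm_num)).1 (hi.trans h8)
  omega

/-- the counting theorem for prefix complexity -/
theorem K_cap {K : List Bool → ℕ} (hK : IsKP (fun i => K (natStr i))) :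
    ∃ c : ℕ, ∀ (n e : ℕ) (A : Finset (List Bool)),
      (∀ x ∈ A, x.length = n ∧ K x + 2*e ≤ n + K (natStr n)) → A.card * 2^(2*e) ≤ 2^(n+c) := by
  obtain ⟨c, hc⟩ := K_count hK
  refine ⟨c + 1, fun n e A hA => ?_⟩
  rcases Nat.eq_zero_or_pos A.card with h0 | h0
  · rw [h0]; simp
  · have h1 : 2^(Nat.log 2 A.card) ≤ A.card := Nat.pow_log_le_self 2 h0.ne'
    have h2 : A.card < 2^(Nat.log 2 A.card + 1) := Nat.lt_pow_succ_log_self (by norm_num) _
    obtain ⟨x, hx⟩ := Finset.card_pos.1 h0
    have h3 := (hA x hx).2
    have h4 := hc n (Nat.log 2 A.card) (n + K (natStr n) - 2*e) A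
      (fun x hx => ⟨(hA x hx).1, by have := (hA x hx).2; omega⟩) h1
    calc A.card * 2^(2*e) ≤ 2^(Nat.log 2 A.card + 1) * 2^(2*e) :=
          Nat.mul_le_mul_right _ h2.le
      _ = 2^(Nat.log 2 A.card + 1 + 2*e) := by rw [← pow_add]
      _ ≤ 2^(n + (c+1)) := Nat.pow_le_pow_right (by norm_num) (by omega)

lemma c_take {α : Type*} [Primcodable α] {n u : α → ℕ} (hn : Computable n) (hu : Computable u) :
    Computable fun p => strNat ((natStr (u p)).take (n p)) :=
  primrec_strNat.to_comp.comp ((Primrec.list_take.to_comp).comp hn (computable_natStr.comp hu))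

/-- the upper bound for plain complexity -/
theorem C_upper {K C : List Bool → ℕ} (hK : IsKP (fun i => K (natStr i)))
    (hC : IsPlain (fun i => C (natStr i))) :
    ∃ c : ℕ, ∀ (n e : ℕ) (y : List Bool), y.length = Nat.pair (K (natStr n)) n →
      K (y.take n) + 2*e ≤ n + K (natStr n) → C y + e ≤ y.length + c := by
  classical
  obtain ⟨a, ha, ha1, ha2, ha3⟩ := exists_approx_anti hK.1
  obtain ⟨c₁, hc₁⟩ := K_cap hK
  set len : ℕ → ℕ := fun u => (natStr u).length with hlen
  set cond : ℕ → ℕ → Prop := fun u t =>
    a (strNat ((natStr u).take (len u).unpair.2)) t.unpair.1 + 2 * t.unpair.2 ≤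
        (len u).unpair.2 + (len u).unpair.1 ∧
      (ls a (len u).unpair.2 ((len u).unpair.2 + (len u).unpair.1 - 2 * t.unpair.2)
        t.unpair.1).length * 2^(2 * t.unpair.2) ≤ 2^((len u).unpair.2 + c₁) with hcond
  set g : ℕ → ℕ → ℕ := fun u t =>
    if cond u t then len u + (c₁ + 3) - t.unpair.2 else u + 2 with hg
  have hgc : Computable₂ g := by
    have hx : Computable (fun p : ℕ × ℕ => p.1) := Computable.fst
    have h1 : Computable (fun p : ℕ × ℕ => p.2.unpair.1) :=
      Computable.fst.comp (Computable.unpair.comp Computable.snd)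
    have h2 : Computable (fun p : ℕ × ℕ => p.2.unpair.2) :=
      Computable.snd.comp (Computable.unpair.comp Computable.snd)
    have hl : Computable (fun p : ℕ × ℕ => len p.1) := c_len hx
    have hk : Computable (fun p : ℕ × ℕ => (len p.1).unpair.1) :=
      Computable.fst.comp (Computable.unpair.comp hl)
    have hn : Computable (fun p : ℕ × ℕ => (len p.1).unpair.2) :=
      Computable.snd.comp (Computable.unpair.comp hl)
    refine c_ite (p := fun p : ℕ × ℕ => cond p.1 p.2) ?_ ?_ ?_
    · have h3 := c_and (c_le (c_add (ha.comp (c_take hn hx) h1) (c_mul (Computable.const 2) h2))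
        (c_add hn hk))
        (c_le (c_mul (Computable.list_length.comp (c_ls ha hn
          (c_sub (c_add hn hk) (c_mul (Computable.const 2) h2)) h1))
          (c_pow2 (c_mul (Computable.const 2) h2))) (c_pow2 (c_add hn (Computable.const c₁))))
      refine h3.of_eq fun p => ?_
      rw [Bool.eq_iff_iff]
      simp only [Bool.and_eq_true, decide_eq_true_eq, hcond]
    · exact c_sub (c_add hl (Computable.const (c₁ + 3))) h2
    · exact c_add hx (Computable.const 2)
  have hct : ∀ (k : ℕ) (U : Finset ℕ) (τ : ℕ → ℕ), (∀ u ∈ U, g u (τ u) ≤ k) →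
      U.card ≤ 2^(k+1) := by
    intro κ U τ hU
    rw [← Finset.card_filter_add_card_filter_not (s := U) (fun u => cond u (τ u))]
    set U₁ := U.filter (fun u => cond u (τ u)) with hU₁
    set U₂ := U.filter (fun u => ¬ cond u (τ u)) with hU₂
    have h2 : U₂.card ≤ 2^κ := by
      have h3 : U₂.card ≤ (Finset.range κ).card := by
        apply Finset.card_le_card
        intro u hu
        rw [hU₂, Finset.mem_filter] at hu
        have := hU u hu.1
        simp only [hg] at this
        rw [if_neg hu.2] at this
        exact Finset.mem_range.2 (by omega)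
      rw [Finset.card_range] at h3
      exact h3.trans Nat.lt_two_pow_self.le
    have h1 : U₁.card ≤ 2^κ := by
      set ev : ℕ → ℕ := fun u => (τ u).unpair.2 with hev
      set lev : ℕ → ℕ := fun u => len u + (c₁ + 3) - ev u with hlev
      set E := U₁.sup ev + 1 with hE
      have hmaps : ∀ u ∈ U₁, (ev u, lev u) ∈ Finset.range E ×ˢ Finset.range (κ+1) := by
        intro u hu
        have hu' := hu
        rw [hU₁, Finset.mem_filter] at hu
        have h3 := hU u hu.1
        simp only [hg] at h3
        rw [if_pos hu.2] at h3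
        rw [Finset.mem_product]
        exact ⟨Finset.mem_range.2 (Nat.lt_succ_of_le (Finset.le_sup (f := ev) hu')),
          Finset.mem_range.2 (Nat.lt_succ_of_le h3)⟩
      have h4 : U₁.card = ∑ p ∈ Finset.range E ×ˢ Finset.range (κ+1),
          (U₁.filter (fun u => (ev u, lev u) = p)).card :=
        Finset.card_eq_sum_card_fiberwise hmaps
      have hgrp : ∀ p ∈ Finset.range E ×ˢ Finset.range (κ+1),
          ((U₁.filter (fun u => (ev u, lev u) = p)).card : ℝ) ≤ (2:ℝ)^p.2 * (1/2)^(p.1+2) := by
        rintro ⟨e, l⟩ -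
        set V := U₁.filter (fun u => (ev u, lev u) = (e, l)) with hV
        rcases V.eq_empty_or_nonempty with hVe | hVne
        · rw [hVe, card_empty]; simp only [Nat.cast_zero]; positivity
        -- a member with maximal stage
        obtain ⟨u₀, hu₀, hmax⟩ := V.exists_max_image (fun u => (τ u).unpair.1) hVne
        have hmem : ∀ u ∈ V, ev u = e ∧ lev u = l ∧ cond u (τ u) := by
          intro u hu
          rw [hV, mem_filter] at hu
          have := hu.2
          rw [Prod.mk.injEq] at this
          exact ⟨this.1, this.2, (mem_filter.1 hu.1).2⟩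
        have hle : ∀ u ∈ V, 2 * e ≤ (len u).unpair.2 + c₁ := by
          intro u hu
          obtain ⟨h5, h6, h7⟩ := hmem u hu
          simp only [hcond] at h7
          change _ + 2 * ev u ≤ _ ∧ (ls a (len u).unpair.2 ((len u).unpair.2 +
            (len u).unpair.1 - 2 * ev u) (τ u).unpair.1).length * 2^(2 * ev u) ≤ _ at h7
          rw [h5] at h7
          have h8 : 0 < (ls a (len u).unpair.2 ((len u).unpair.2 +
            (len u).unpair.1 - 2 * e) (τ u).unpair.1).length := by
            apply List.length_pos_of_mem (a := strNat ((natStr u).take (len u).unpair.2))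
            rw [mem_ls, natStr_strNat, List.length_take]
            refine ⟨min_eq_left (Nat.unpair_right_le _), ?_⟩
            omega
          have h9 : 2^(2*e) ≤ 2^((len u).unpair.2 + c₁) :=
            (Nat.le_mul_of_pos_left _ h8).trans h7.2
          exact (Nat.pow_le_pow_iff_right (by norm_num)).1 h9
        have hlenV : ∀ u ∈ V, len u + (c₁ + 3) = l + e := by
          intro u hu
          obtain ⟨h5, h6, -⟩ := hmem u hu
          have h7 := hle u hu
          have h8 : (len u).unpair.2 ≤ len u := Nat.unpair_right_le _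
          simp only [hlev] at h6
          rw [h5] at h6
          omega
        set m := len u₀ with hm
        have hlen' : ∀ u ∈ V, len u = m := by
          intro u hu
          have := hlenV u hu
          have := hlenV u₀ hu₀
          omega
        set n := m.unpair.2 with hn
        set k := m.unpair.1 with hk
        set B := (ls a n (n + k - 2 * e) (τ u₀).unpair.1).toFinset with hB
        have hcap : B.card * 2^(2*e) ≤ 2^(n + c₁) := by
          rw [hB, card_ls]
          obtain ⟨h5, -, h7⟩ := hmem u₀ hu₀
          simp only [hcond] at h7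
          have h8 := h7.2
          change (ls a (len u₀).unpair.2 ((len u₀).unpair.2 +
            (len u₀).unpair.1 - 2 * ev u₀) (τ u₀).unpair.1).length * 2^(2 * ev u₀) ≤ _ at h8
          rw [h5] at h8
          exact h8
        have himg : V.image (fun u => strNat ((natStr u).take n)) ⊆ B := by
          intro z hz
          obtain ⟨u, hu, rfl⟩ := mem_image.1 hz
          obtain ⟨h5, -, h7⟩ := hmem u hu
          simp only [hcond] at h7
          have h8 := h7.1
          change _ + 2 * ev u ≤ _ at h8
          rw [h5, hlen' u hu] at h8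
          rw [hB, List.mem_toFinset, mem_ls, natStr_strNat, List.length_take]
          have h9 : n ≤ (natStr u).length := by
            have : (natStr u).length = m := hlen' u hu
            rw [this]; exact Nat.unpair_right_le _
          refine ⟨min_eq_left h9, ?_⟩
          have h10 := ha3 (strNat ((natStr u).take n)) _ _ (hmax u hu)
          change a (strNat ((natStr u).take n)) (τ u).unpair.1 + 2 * e ≤ n + k at h8
          omega
        have hfib : V.card ≤ 2^(m - n) * (V.image (fun u => strNat ((natStr u).take n))).card := by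
          apply Finset.card_le_mul_card_image
          intro z hz
          set F := V.filter (fun u => strNat ((natStr u).take n) = z) with hF
          have hinj : Set.InjOn (fun u => (natStr u).drop n) (F : Set ℕ) := by
            intro u hu v hv h
            have hu' := (mem_filter.1 (Finset.mem_coe.1 hu)).2
            have hv' := (mem_filter.1 (Finset.mem_coe.1 hv)).2
            have h11 : (natStr u).take n = (natStr v).take n :=
              strNat_injective (hu'.trans hv'.symm)
            apply natStr.injective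
            rw [← List.take_append_drop n (natStr u), ← List.take_append_drop n (natStr v), h11]
            simp only at h
            rw [h]
          rw [← Finset.card_image_of_injOn hinj]
          apply card_len
          intro p hp
          obtain ⟨u, hu, rfl⟩ := mem_image.1 hp
          have : (natStr u).length = m := hlen' u (mem_filter.1 hu).1
          rw [List.length_drop, this]
        have hnm : n ≤ m := Nat.unpair_right_le _
        have hV1 : V.card * 2^(2*e) ≤ 2^(m + c₁) := by
          calc V.card * 2^(2*e) ≤ (2^(m - n) * B.card) * 2^(2*e) :=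
                Nat.mul_le_mul_right _ (hfib.trans (Nat.mul_le_mul_left _ (card_le_card himg)))
            _ = 2^(m - n) * (B.card * 2^(2*e)) := by ring
            _ ≤ 2^(m - n) * 2^(n + c₁) := Nat.mul_le_mul_left _ hcap
            _ = 2^(m + c₁) := by rw [← pow_add]; congr 1; omega
        have hV2 : V.card * 2^(e+3) ≤ 2^l := by
          have h12 := hlenV u₀ hu₀
          have h13 : (V.card * 2^(e+3)) * 2^e ≤ 2^l * 2^e := by
            calc (V.card * 2^(e+3)) * 2^e = (V.card * 2^(2*e)) * 2^3 := by
                  rw [mul_assoc, ← pow_add, mul_assoc, ← pow_add]; congr 2; ring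
              _ ≤ 2^(m + c₁) * 2^3 := Nat.mul_le_mul_right _ hV1
              _ = 2^l * 2^e := by
                  rw [← pow_add, ← pow_add]; congr 1
          exact Nat.le_of_mul_le_mul_right h13 (by positivity)
        have hV3 : (V.card : ℝ) * 2^(e+3) ≤ 2^l := by exact_mod_cast hV2
        have h14 : (V.card : ℝ) = (V.card : ℝ) * 2^(e+3) * (1/2)^(e+3) := by
          rw [mul_assoc, ← mul_pow]; norm_num
        rw [h14]
        calc (V.card : ℝ) * 2^(e+3) * (1/2)^(e+3) ≤ 2^l * (1/2)^(e+3) :=
              mul_le_mul_of_nonneg_right hV3 (by positivity)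
          _ ≤ 2^l * (1/2)^(e+2) :=
              mul_le_mul_of_nonneg_left (half_pow_le (by omega)) (by positivity)
      have h5 : (U₁.card : ℝ) ≤ ∑ p ∈ Finset.range E ×ˢ Finset.range (κ+1),
          (2:ℝ)^p.2 * (1/2)^(p.1+2) := by
        rw [h4]
        push_cast
        exact Finset.sum_le_sum hgrp
      have h6 : ∑ p ∈ Finset.range E ×ˢ Finset.range (κ+1), (2:ℝ)^p.2 * (1/2)^(p.1+2) =
          (∑ d ∈ Finset.range E, ((1:ℝ)/2)^(d+2)) * (∑ l ∈ Finset.range (κ+1), (2:ℝ)^l) := by
        rw [Finset.sum_product, Finset.sum_mul]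
        refine Finset.sum_congr rfl fun d _ => ?_
        rw [Finset.mul_sum]
        refine Finset.sum_congr rfl fun l _ => ?_
        ring
      have h7 : (U₁.card : ℝ) ≤ (1/2) * 2^(κ+1) := by
        refine h5.trans ?_
        rw [h6]
        refine mul_le_mul (geo2 E) (geo_up κ) ?_ (by norm_num)
        exact Finset.sum_nonneg fun _ _ => by positivity
      have h8 : (U₁.card : ℝ) ≤ 2^κ := by
        refine h7.trans (le_of_eq ?_)
        rw [pow_succ]; ring
      exact_mod_cast h8
    rw [pow_succ]; omega
  obtain ⟨c, hc⟩ := approx_plain hC g hgc hct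
  refine ⟨c + c₁ + 3, fun n e y hy hK' => ?_⟩
  choose t ht using ha2
  -- a stage at which all strings of length `n` have settled
  set s := (L n).sup (fun x => t (strNat x)) with hs
  have hset : ∀ x : List Bool, x.length = n → a (strNat x) s = K x := by
    intro x hx
    rw [ht (strNat x) s (Finset.le_sup (f := fun x => t (strNat x)) (mem_L.2 hx)), natStr_strNat]
  have hny : n ≤ y.length := by rw [hy]; exact Nat.right_le_pair _ _
  have hlu : len (strNat y) = Nat.pair (K (natStr n)) n := by
    simp only [hlen, natStr_strNat, hy]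
  have h1 := hc (strNat y) (Nat.pair s e)
  have h2 : cond (strNat y) (Nat.pair s e) := by
    simp only [hcond, hlu, Nat.unpair_pair, natStr_strNat]
    have htk : (y.take n).length = n := by rw [List.length_take]; exact min_eq_left hny
    refine ⟨?_, ?_⟩
    · rw [hset _ htk]; exact hK'
    · rw [← card_ls, ← Finset.card_image_of_injective _ natStr.injective]
      apply hc₁ n e
      intro x hx
      obtain ⟨z, hz, rfl⟩ := mem_image.1 hx
      rw [List.mem_toFinset, mem_ls] at hz
      refine ⟨hz.1, ?_⟩
      have h3 := hset (natStr z) hz.1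
      rw [strNat_natStr] at h3
      have h4 := hz.2
      rw [h3] at h4
      omega
  simp only [hg] at h1
  rw [if_pos h2, hlu] at h1
  simp only [Nat.unpair_pair, natStr_strNat] at h1
  have h5 := hc₁ n e {y.take n} (by
    intro x hx
    rw [mem_singleton] at hx
    subst hx
    exact ⟨by rw [List.length_take]; exact min_eq_left hny, hK'⟩)
  rw [card_singleton, one_mul] at h5
  have h6 := (Nat.pow_le_pow_iff_right (by norm_num : 1 < 2)).1 h5
  rw [← hy] at h1
  omega

/-- **(B2) implies (A2)**, abstract form. -/
theorem conv {K C : List Bool → ℕ} (hK : IsKP (fun i => K (natStr i)))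
    (hC : IsPlain (fun i => C (natStr i))) (μ : Measure (ℕ → Bool)) [IsProbabilityMeasure μ]
    (h : ∃ c : ℝ, ∀ n : ℕ, (n : ℝ) - c ≤ avg μ C n) :
    ∃ c : ℝ, ∀ n : ℕ, (n : ℝ) + K (natStr n) - c ≤ avg μ K n := by
  classical
  obtain ⟨c, hc⟩ := h
  obtain ⟨c₁, hc₁⟩ := plain_le_length hC
  obtain ⟨c₂, hc₂⟩ := C_upper hK hC
  obtain ⟨M, hM1, hM2⟩ : ∃ M : ℕ, c₁ ≤ M ∧ c₂ ≤ M := ⟨max c₁ c₂, le_max_left _ _, le_max_right _ _⟩
  refine ⟨2 * (M + c) + 1, fun n => ?_⟩
  set k := K (natStr n) with hk
  set m := Nat.pair k n with hm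
  set ε : List Bool → ℕ := fun x => (n + k - K x) / 2 with hε
  have hnm : n ≤ m := Nat.right_le_pair _ _
  have h1 : avg μ C m ≤ ∑ x ∈ L n, wt μ x * ((m : ℝ) + M - ε x) := by
    apply avg_le μ hnm
    intro x y hx hy hxy
    have h2 : C y + ε x ≤ m + M := by
      by_cases h3 : K x ≤ n + k
      · have h4 := hc₂ n (ε x) y hy (by
          rw [hxy]
          simp only [hε]
          omega)
        rw [hy] at h4
        exact h4.trans (Nat.add_le_add_left hM2 _)
      · have h4 := hc₁ y
        rw [hy] at h4
        have h5 : ε x = 0 := by simp only [hε]; omega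
        rw [h5, add_zero]
        exact h4.trans (Nat.add_le_add_left hM1 _)
    have h3 : (C y : ℝ) + ε x ≤ m + M := by exact_mod_cast h2
    linarith
  have h2 : ∑ x ∈ L n, wt μ x * ((m : ℝ) + M - ε x) =
      (m + M) * ∑ x ∈ L n, wt μ x - ∑ x ∈ L n, wt μ x * (ε x : ℝ) := by
    rw [Finset.mul_sum, ← Finset.sum_sub_distrib]
    refine Finset.sum_congr rfl fun x _ => ?_
    ring
  rw [h2, sum_wt] at h1
  have h3 := (hc m).trans h1
  have h4 : ∑ x ∈ L n, wt μ x * (ε x : ℝ) ≤ M + c := by linarith
  have h5 : ∑ x ∈ L n, wt μ x * ((n : ℝ) + k - 2 * ε x - 1) ≤ avg μ K n := by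
    rw [avg_eq]
    refine Finset.sum_le_sum fun x _ => mul_le_mul_of_nonneg_left ?_ (wt_nonneg μ x)
    have h6 : n + k ≤ K x + 2 * ε x + 1 := by simp only [hε]; omega
    have h7 : (n : ℝ) + k ≤ K x + 2 * ε x + 1 := by exact_mod_cast h6
    linarith
  have h6 : ∑ x ∈ L n, wt μ x * ((n : ℝ) + k - 2 * ε x - 1) =
      (n + k - 1) * ∑ x ∈ L n, wt μ x - 2 * ∑ x ∈ L n, wt μ x * (ε x : ℝ) := by
    rw [Finset.mul_sum, Finset.mul_sum, ← Finset.sum_sub_distrib]
    refine Finset.sum_congr rfl fun x _ => ?_
    ring
  rw [h6, sum_wt] at h5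
  linarith

end Pool.Agent.Q316.KC
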