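import Mathlib
import Pool.Agent.Q316.KC.Wt

/-!
Every C-trivial measure is K-trivial.
-/

set_option autoImplicit false
open Finset MeasureTheory

namespace Pool.Agent.Q316.KC

open Pool.Agent.TH676.CK (IsPlain PCount)
open Pool.Agent.Helper981.KP (USC Kraft IsKP)

section comb
variable (C : List Bool → ℕ)

/-- the least complexity of an extension of `x` of length `N` -/
noncomputable def Dm (x : List Bool) (N : ℕ) : ℕ :=
  sInf {k : ℕ | ∃ y : List Bool, y.length = N ∧ x <+: y ∧ C y = k}

lemma Dm_le {x y : List Bool} (h : x <+: y) : Dm C x y.length ≤ C y :=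
  Nat.sInf_le ⟨y, rfl, h, rfl⟩

lemma Dm_spec {x : List Bool} {N : ℕ} (h : x.length ≤ N) :
    ∃ y : List Bool, y.length = N ∧ x <+: y ∧ C y = Dm C x N := by
  have : {k : ℕ | ∃ y : List Bool, y.length = N ∧ x <+: y ∧ C y = k}.Nonempty :=
    ⟨_, x ++ List.replicate (N - x.length) false, by simp; omega, List.prefix_append _ _, rfl⟩
  exact Nat.sInf_mem this

lemma mem_S_iff {x : List Bool} {N k : ℕ} (hN : N ∈ I x.length) : N ∈ S C x k ↔ Dm C x N ≤ k := by
  rw [mem_S]
  constructor
  · rintro ⟨-, y, h1, h2, h3⟩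
    subst h1
    exact (Dm_le C h2).trans h3
  · intro h
    obtain ⟨y, h1, h2, h3⟩ := Dm_spec C (le_of_mem_I hN)
    exact ⟨hN, y, h1, h2, h3.trans_le h⟩

variable {C} (hC : PCount (fun i => C (natStr i)))

include hC in
lemma card_S_le (x : List Bool) (k : ℕ) : (S C x k).card ≤ 2^(k+1) := by
  classical
  have h1 : ∀ N : ℕ, N ∈ S C x k → ∃ y : List Bool, y.length = N ∧ x <+: y ∧ C y ≤ k :=
    fun N hN => (mem_S.1 hN).2
  choose f hf using h1
  set F : ℕ → List Bool := fun N => if h : N ∈ S C x k then f N h else [] with hF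
  have hinj : Set.InjOn F (S C x k : Set ℕ) := by
    intro N hN M hM h
    have hN' : N ∈ S C x k := hN
    have hM' : M ∈ S C x k := hM
    simp only [hF, dif_pos hN', dif_pos hM'] at h
    rw [← (hf N hN').1, ← (hf M hM').1, h]
  rw [← Finset.card_image_of_injOn hinj]
  apply pcount_list hC
  intro y hy
  obtain ⟨N, hN, rfl⟩ := mem_image.1 hy
  simp only [hF, dif_pos hN]
  exact (hf N hN).2.2

include hC in
lemma lower_tail (x : List Bool) : ∑ N ∈ I x.length, (x.length - Dm C x N) ≤ 2^(x.length+1) := by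
  classical
  have h1 : ∀ N ∈ I x.length, x.length - Dm C x N =
      ∑ k ∈ range x.length, if Dm C x N ≤ k then 1 else 0 := by
    intro N _
    rw [← Finset.sum_filter, Finset.sum_const, smul_eq_mul, mul_one]
    have : (range x.length).filter (fun k => Dm C x N ≤ k) = Finset.Ico (Dm C x N) x.length := by
      ext k
      rw [mem_filter, mem_range, Finset.mem_Ico]
      omega
    rw [this, Nat.card_Ico]
  rw [Finset.sum_congr rfl h1, Finset.sum_comm]
  have h2 : ∀ k ∈ range x.length, (∑ N ∈ I x.length, if Dm C x N ≤ k then 1 else 0) ≤ 2^(k+1) := by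
    intro k _
    rw [← Finset.sum_filter, Finset.sum_const, smul_eq_mul, mul_one]
    refine le_trans (card_le_card ?_) (card_S_le hC x k)
    intro N hN
    rw [mem_filter] at hN
    exact (mem_S_iff C hN.1).2 hN.2
  refine (Finset.sum_le_sum h2).trans ?_
  have h3 : ∀ n, ∑ k ∈ range n, 2^(k+1) ≤ 2^(n+1) := by
    intro n
    induction n with
    | zero => simp
    | succ n ih =>
      rw [Finset.sum_range_succ, pow_succ 2 (n+1)]
      omega
  exact h3 _

lemma exists_e (C : List Bool → ℕ) (x : List Bool) :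
    ∃ e : ℕ, 2^x.length ≤ 2 * (S C x (x.length + e)).card := by
  classical
  refine ⟨(I x.length).sup (Dm C x), ?_⟩
  have h : S C x (x.length + (I x.length).sup (Dm C x)) = I x.length := by
    ext N
    constructor
    · exact fun h => (mem_S.1 h).1
    · intro h
      refine (mem_S_iff C h).2 (le_trans (Finset.le_sup (f := Dm C x) h) ?_)
      omega
  rw [h, card_I]
  omega

/-- the least `e` such that half of the numbers with string of length `|x|` are lengths of
extensions of complexity at most `|x| + e` -/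
noncomputable def ee (C : List Bool → ℕ) (x : List Bool) : ℕ :=
  sInf {e : ℕ | 2^x.length ≤ 2 * (S C x (x.length + e)).card}

lemma ee_spec (C : List Bool → ℕ) (x : List Bool) :
    2^x.length ≤ 2 * (S C x (x.length + ee C x)).card := by
  exact Nat.sInf_mem (s := {e : ℕ | 2^x.length ≤ 2 * (S C x (x.length + e)).card}) (exists_e C x)

lemma ee_min {C : List Bool → ℕ} {x : List Bool} {e : ℕ} (h : e < ee C x) :
    2 * (S C x (x.length + e)).card < 2^x.length := by
  exact not_le.1 (Nat.notMem_of_lt_sInf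
    (s := {e : ℕ | 2^x.length ≤ 2 * (S C x (x.length + e)).card}) h)

lemma upper_tail (C : List Bool → ℕ) (x : List Bool) :
    2^x.length * ee C x ≤ 2 * ∑ N ∈ I x.length, (Dm C x N - x.length) := by
  classical
  rcases Nat.eq_zero_or_pos (ee C x) with h0 | h0
  · rw [h0]; simp
  · have h1 := ee_min (C := C) (x := x) (e := ee C x - 1) (by omega)
    set A := S C x (x.length + (ee C x - 1)) with hA
    have hsub : A ⊆ I x.length := fun N hN => (mem_S.1 hN).1
    have h2 : ∀ N ∈ I x.length \ A, ee C x ≤ Dm C x N - x.length := by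
      intro N hN
      rw [mem_sdiff] at hN
      have := mt (mem_S_iff C hN.1).2 hN.2
      omega
    have h3 : (I x.length \ A).card * ee C x ≤ ∑ N ∈ I x.length, (Dm C x N - x.length) := by
      calc (I x.length \ A).card * ee C x = ∑ _N ∈ I x.length \ A, ee C x := by
            rw [Finset.sum_const, smul_eq_mul]
        _ ≤ ∑ N ∈ I x.length \ A, (Dm C x N - x.length) := Finset.sum_le_sum h2
        _ ≤ _ := Finset.sum_le_sum_of_subset sdiff_subset
    have h4 : (I x.length \ A).card = 2^x.length - A.card := by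
      rw [card_sdiff_of_subset hsub, card_I]
    have h5 : 2^x.length ≤ 2 * (I x.length \ A).card := by omega
    calc 2^x.length * ee C x ≤ (2 * (I x.length \ A).card) * ee C x :=
          Nat.mul_le_mul_right _ h5
      _ = 2 * ((I x.length \ A).card * ee C x) := by ring
      _ ≤ _ := Nat.mul_le_mul_left _ h3

include hC in
lemma sum_Dm (x : List Bool) : 2 * (2^x.length * x.length) + 2^x.length * ee C x ≤
    2 * ∑ N ∈ I x.length, Dm C x N + 4 * 2^x.length := by
  have h1 := upper_tail C x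
  have h2 := lower_tail hC x
  have h3 : ∑ N ∈ I x.length, x.length + ∑ N ∈ I x.length, (Dm C x N - x.length) =
      ∑ N ∈ I x.length, Dm C x N + ∑ N ∈ I x.length, (x.length - Dm C x N) := by
    rw [← Finset.sum_add_distrib, ← Finset.sum_add_distrib]
    exact Finset.sum_congr rfl fun N _ => by omega
  rw [Finset.sum_const, card_I, smul_eq_mul] at h3
  rw [pow_succ] at h2
  omega

end comb

/-- **Every C-trivial measure is K-trivial**, abstract form. -/
theorem triv {K C : List Bool → ℕ} (hK : IsKP (fun i => K (natStr i)))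
    (hC : IsPlain (fun i => C (natStr i))) (μ : Measure (ℕ → Bool)) [IsProbabilityMeasure μ]
    (h : ∃ c : ℝ, ∀ n : ℕ, avg μ C n ≤ C (natStr n) + c) :
    ∃ c : ℝ, ∀ n : ℕ, avg μ K n ≤ K (natStr n) + c := by
  classical
  obtain ⟨c, hc⟩ := h
  obtain ⟨c₁, hc₁⟩ := plain_le_length hC
  obtain ⟨c₂, hc₂⟩ := K_upper hK hC
  refine ⟨4 * (c₁ + c + 2) + c₂, fun n => ?_⟩
  -- the average of `ee` is bounded
  have h1 : ∀ N ∈ I n, ∑ x ∈ L n, wt μ x * (Dm C x N : ℝ) ≤ n + c₁ + c := by
    intro N hN
    have h2 : ∑ x ∈ L n, wt μ x * (Dm C x N : ℝ) ≤ avg μ C N := by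
      apply avg_ge μ (le_of_mem_I hN)
      intro x y hx hy hxy
      have h3 : x <+: y := by
        rw [← hxy]; exact List.take_prefix _ _
      have := Dm_le C h3
      rw [hy] at this
      exact_mod_cast this
    have h3 := hc N
    have h4 := hc₁ (natStr N)
    rw [length_of_mem_I hN] at h4
    have h5 : (C (natStr N) : ℝ) ≤ n + c₁ := by exact_mod_cast h4
    linarith
  have h2 : ∑ N ∈ I n, ∑ x ∈ L n, wt μ x * (Dm C x N : ℝ) ≤ 2^n * (n + c₁ + c) := by
    refine (Finset.sum_le_sum h1).trans ?_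
    rw [Finset.sum_const, card_I, nsmul_eq_mul]
    push_cast
    exact le_rfl
  rw [Finset.sum_comm] at h2
  have h3 : ∀ x ∈ L n, wt μ x * (2^n * ((n : ℝ) + ee C x / 2 - 2)) ≤
      ∑ N ∈ I n, wt μ x * (Dm C x N : ℝ) := by
    intro x hx
    rw [← Finset.mul_sum]
    apply mul_le_mul_of_nonneg_left _ (wt_nonneg μ x)
    have h4 := sum_Dm hC.2.1 x
    rw [mem_L.1 hx] at h4
    have h5 : (2 * ((2:ℝ)^n * n) + 2^n * (ee C x : ℝ)) ≤
        2 * ∑ N ∈ I n, (Dm C x N : ℝ) + 4 * 2^n := by exact_mod_cast h4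
    linarith
  have h4 := (Finset.sum_le_sum h3).trans h2
  have h5 : ∑ x ∈ L n, wt μ x * (2^n * ((n : ℝ) + ee C x / 2 - 2)) =
      2^n * ((n - 2) * ∑ x ∈ L n, wt μ x + (∑ x ∈ L n, wt μ x * (ee C x : ℝ)) / 2) := by
    rw [Finset.sum_div, Finset.mul_sum, ← Finset.sum_add_distrib, Finset.mul_sum]
    refine Finset.sum_congr rfl fun x _ => ?_
    ring
  rw [h5, sum_wt] at h4
  have hpos : (0:ℝ) < 2^n := by positivity
  have h6 := le_of_mul_le_mul_left h4 hpos
  have h7 : ∑ x ∈ L n, wt μ x * (ee C x : ℝ) ≤ 2 * (c₁ + c + 2) := by linarith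
  -- the average of `K`
  rw [avg_eq]
  have h8 : ∀ x ∈ L n, wt μ x * (K x : ℝ) ≤ wt μ x * (K (natStr n) + 2 * ee C x + c₂) := by
    intro x hx
    apply mul_le_mul_of_nonneg_left _ (wt_nonneg μ x)
    have h9 := hc₂ x (ee C x) (ee_spec C x)
    rw [mem_L.1 hx] at h9
    exact_mod_cast h9
  refine (Finset.sum_le_sum h8).trans ?_
  have h9 : ∑ x ∈ L n, wt μ x * ((K (natStr n) : ℝ) + 2 * ee C x + c₂) =
      (K (natStr n) + c₂) * ∑ x ∈ L n, wt μ x + 2 * ∑ x ∈ L n, wt μ x * (ee C x : ℝ) := by
    rw [Finset.mul_sum, Finset.mul_sum, ← Finset.sum_add_distrib]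
    refine Finset.sum_congr rfl fun x _ => ?_
    ring
  rw [h9, sum_wt]
  linarith

end Pool.Agent.Q316.KC
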